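import Pool.Agent.Helper95_PSC.Stmts

set_option autoImplicit false

/-!
# The Novikov trick
-/

namespace Pool.Agent.PSC.H77

open Pool.Agent.PSC

variable {m : ℕ} {l : Fin (m + 1) → ℝ}

lemma ht_add (v w : Lat m) : ht l (v + w) = ht l v + ht l w := by
  unfold ht
  rw [← Finset.sum_add_distrib]
  refine Finset.sum_congr rfl fun i _ => ?_
  rw [Pi.add_apply]
  push_cast
  ring

lemma ht_zero : ht l (0 : Lat m) = 0 := by
  unfold ht
  simp

lemma ht_neg (v : Lat m) : ht l (-v) = -ht l v := by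
  have h := ht_add (l := l) v (-v)
  rw [add_neg_cancel, ht_zero] at h
  linarith

/-- the heights of the support are at most `c` -/
def HS (l : Fin (m + 1) → ℝ) (x : R m) (c : ℝ) : Prop := ∀ v ∈ x.coeff.support, ht l v ≤ c

lemma HS.mul {x y : R m} {a b : ℝ} (hx : HS l x a) (hy : HS l y b) : HS l (x * y) (a + b) := by
  classical
  intro v hv
  have h1 := AddMonoidAlgebra.support_coeff_mul_subset x y hv
  obtain ⟨u, hu, w, hw, rfl⟩ := Finset.mem_add.mp h1
  rw [ht_add]
  exact add_le_add (hx u hu) (hy w hw)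

lemma HS.one : HS l (1 : R m) 0 := by
  intro v hv
  have h1 := AddMonoidAlgebra.support_coeff_one_subset hv
  rw [Finset.mem_zero] at h1
  rw [h1, ht_zero]

lemma HS.pow {x : R m} {a : ℝ} (hx : HS l x a) (n : ℕ) : HS l (x ^ n) (n * a) := by
  induction n with
  | zero =>
    rw [pow_zero, Nat.cast_zero, zero_mul]
    exact HS.one
  | succ n ih =>
    have h1 := ih.mul hx
    rw [pow_succ]
    have h2 : ((n + 1 : ℕ) : ℝ) * a = n * a + a := by push_cast; ring
    rw [h2]
    exact h1

lemma HS.neg {x : R m} {a : ℝ} (hx : HS l x a) : HS l (-x) a := by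
  intro v hv
  apply hx v
  rw [Finsupp.mem_support_iff] at hv ⊢
  intro h
  apply hv
  have h1 : (-x).coeff = -x.coeff := rfl
  rw [h1, Finsupp.neg_apply, h, neg_zero]

theorem nov : NovStmt := by
  classical
  intro m l hl f hf H
  have hne : f.coeff.support.Nonempty := by
    rw [Finsupp.support_nonempty_iff]
    intro h
    exact hf (AddMonoidAlgebra.coeff_eq_zero.mp h)
  obtain ⟨v0, hv0, hmax⟩ := f.coeff.support.exists_max_image (ht l) hne
  have hc0 : f.coeff v0 ≠ 0 := Finsupp.mem_support_iff.mp hv0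
  set g0 : R m := AddMonoidAlgebra.single (-v0) (f.coeff v0)⁻¹ with hg0
  set e : R m := AddMonoidAlgebra.erase v0 f with he
  have hdec : AddMonoidAlgebra.single v0 (f.coeff v0) + e = f :=
    AddMonoidAlgebra.single_add_erase v0 f
  set q0 : R m := -(g0 * e) with hq0
  have h1 : g0 * f = 1 - q0 := by
    have h2 : g0 * AddMonoidAlgebra.single v0 (f.coeff v0) = 1 := by
      rw [hg0, AddMonoidAlgebra.single_mul_single, neg_add_cancel, inv_mul_cancel₀ hc0]
      rfl
    rw [← hdec, mul_add, h2, hq0, sub_neg_eq_add]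
  obtain ⟨δ, hδ, hHS⟩ : ∃ δ : ℝ, 0 < δ ∧ HS l q0 (-δ) := by
    have hneg : ∀ v ∈ q0.coeff.support, ht l v < 0 := by
      intro v hv
      have h3 : v ∈ (g0 * e).coeff.support := by
        rw [Finsupp.mem_support_iff] at hv ⊢
        intro h
        apply hv
        have h4 : q0.coeff = -(g0 * e).coeff := rfl
        rw [h4, Finsupp.neg_apply, h, neg_zero]
      have h4 := AddMonoidAlgebra.support_coeff_single_mul_subset e _ _ h3
      obtain ⟨w, hw, rfl⟩ := Finset.mem_image.mp h4
      have h5 : e.coeff = f.coeff.erase v0 := AddMonoidAlgebra.coeff_erase v0 f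
      rw [h5, Finsupp.support_erase, Finset.mem_erase] at hw
      have h6 := hmax w hw.2
      have h7 : ht l w ≠ ht l v0 := fun h => hw.1 (hl h)
      rw [ht_add, ht_neg]
      have h8 := lt_of_le_of_ne h6 h7
      linarith
    by_cases hq : q0.coeff.support.Nonempty
    · obtain ⟨v1, hv1, hmax1⟩ := q0.coeff.support.exists_max_image (ht l) hq
      refine ⟨-ht l v1, by linarith [hneg v1 hv1], ?_⟩
      intro v hv
      rw [neg_neg]
      exact hmax1 v hv
    · refine ⟨1, one_pos, fun v hv => absurd ⟨v, hv⟩ hq⟩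
  obtain ⟨N, hN⟩ := exists_nat_gt (H / δ)
  refine ⟨(∑ i ∈ Finset.range N, q0 ^ i) * g0, q0 ^ N, ?_, ?_⟩
  · rw [mul_assoc, h1]
    exact geom_sum_mul_neg q0 N
  · intro v hv
    have h2 := hHS.pow N v hv
    rw [div_lt_iff₀ hδ] at hN
    linarith

end Pool.Agent.PSC.H77
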